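import Pool.Agent.helper29.NS.SpecC
import Pool.Agent.helper34.Soliton.MaxPrinciple

/-!
# Project ns, module FU: forward uniqueness for the difference (maximum principle)
-/

set_option autoImplicit false

namespace NS

open MeasureTheory Filter Topology Set
open Pool.Agent.helper34.Soliton (second_deriv_nonneg deriv_nonpos_of_left)

theorem FU_ht {f : ℝ × ℝ × ℝ → ℝ} (hf : Differentiable ℝ f) (t : ℝ) (q : ℝ × ℝ) :
    HasDerivAt (fun r => f (r, q)) (dt f (t, q)) t := by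
  have h1 : HasDerivAt (fun r : ℝ => (r, q)) ((1 : ℝ), (0 : ℝ × ℝ)) t :=
    (hasDerivAt_id t).prodMk (hasDerivAt_const _ _)
  exact (hf (t, q)).hasFDerivAt.comp_hasDerivAt t h1

theorem FU_hx {f : ℝ × ℝ × ℝ → ℝ} (hf : Differentiable ℝ f) (t x y : ℝ) :
    HasDerivAt (fun r => f (t, (r, y))) (dx f (t, (x, y))) x := by
  have h1 : HasDerivAt (fun r : ℝ => (t, (r, y))) ((0 : ℝ), ((1 : ℝ), (0 : ℝ))) x :=
    (hasDerivAt_const _ _).prodMk ((hasDerivAt_id x).prodMk (hasDerivAt_const _ _))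
  exact (hf (t, (x, y))).hasFDerivAt.comp_hasDerivAt x h1

theorem FU_hy {f : ℝ × ℝ × ℝ → ℝ} (hf : Differentiable ℝ f) (t x y : ℝ) :
    HasDerivAt (fun r => f (t, (x, r))) (dy f (t, (x, y))) y := by
  have h1 : HasDerivAt (fun r : ℝ => (t, (x, r))) ((0 : ℝ), ((0 : ℝ), (1 : ℝ))) y :=
    (hasDerivAt_const _ _).prodMk ((hasDerivAt_const _ _).prodMk (hasDerivAt_id y))
  exact (hf (t, (x, y))).hasFDerivAt.comp_hasDerivAt y h1

theorem FU_dd {f : ℝ × ℝ × ℝ → ℝ} (hf : ContDiff ℝ 3 f) :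
    Differentiable ℝ f ∧ Differentiable ℝ (dx f) ∧ Differentiable ℝ (dy f) := by
  have h2 : ContDiff ℝ 2 (fderiv ℝ f) := hf.fderiv_right (by norm_num)
  exact ⟨hf.differentiable (by norm_num),
    (h2.clm_apply contDiff_const).differentiable (by norm_num),
    (h2.clm_apply contDiff_const).differentiable (by norm_num)⟩

/-- one dimensional conditions at a maximum of `a² + b²` -/
theorem FU_one {f g f1 g1 : ℝ → ℝ} {f2 g2 x : ℝ} (hf : ∀ x, HasDerivAt f (f1 x) x)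
    (hg : ∀ x, HasDerivAt g (g1 x) x) (hf1 : HasDerivAt f1 f2 x) (hg1 : HasDerivAt g1 g2 x)
    (hmax : ∀ᶠ r in 𝓝 x, f r ^ 2 + g r ^ 2 ≤ f x ^ 2 + g x ^ 2) :
    f x * f1 x + g x * g1 x = 0 ∧ f x * f2 + g x * g2 ≤ 0 := by
  have hmin : IsLocalMin (fun r => -(f r ^ 2 + g r ^ 2)) x := by
    filter_upwards [hmax] with r hr
    linarith
  have h1 : ∀ y, HasDerivAt (fun r => -(f r ^ 2 + g r ^ 2))
      (-(2 * f y * f1 y + 2 * g y * g1 y)) y := by
    intro y
    have := (((hf y).pow 2).add ((hg y).pow 2)).neg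
    refine this.congr_deriv ?_
    simp
  have h2 : HasDerivAt (fun y => -(2 * f y * f1 y + 2 * g y * g1 y))
      (-(2 * (f1 x * f1 x + f x * f2) + 2 * (g1 x * g1 x + g x * g2))) x := by
    have h3 := ((((hf x).const_mul 2).mul hf1).add (((hg x).const_mul 2).mul hg1)).neg
    refine h3.congr_deriv ?_
    ring
  have h4 := hmin.hasDerivAt_eq_zero (h1 x)
  have h5 := second_deriv_nonneg h1 h2 hmin
  constructor
  · linarith
  · nlinarith [mul_self_nonneg (f1 x), mul_self_nonneg (g1 x)]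

theorem FU : FU_stmt := by
  intro Ω ν a b m n t0 hΩ hbd hν h h0 t1 ht1 q1 hq1
  obtain ⟨K, hK⟩ := h.bd
  have hK0 : 0 ≤ K := le_trans (abs_nonneg _) (hK (0, (0, 0))).1
  obtain ⟨da, dax, day⟩ := FU_dd h.ca
  obtain ⟨db, dbx, dby⟩ := FU_dd h.cb
  by_contra hcon
  have hpos1 : 0 < a (t1, q1) ^ 2 + b (t1, q1) ^ 2 := by
    rcases not_and_or.1 hcon with h' | h'
    · have := sq_pos_of_ne_zero h'
      positivity
    · have := sq_pos_of_ne_zero h'
      positivity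
  obtain ⟨L, hL⟩ : ∃ L : ℝ, L = 4 * K + 1 := ⟨_, rfl⟩
  have hcl : IsCompact (closure Ω) := hbd.isCompact_closure
  have hcomp : IsCompact (Icc t0 t1 ×ˢ closure Ω) := isCompact_Icc.prod hcl
  have hcont : Continuous (fun z : ℝ × ℝ × ℝ => Real.exp (-(L * z.1)) * (a z ^ 2 + b z ^ 2)) := by
    have := da.continuous
    have := db.continuous
    fun_prop
  have hmem1 : (t1, q1) ∈ Icc t0 t1 ×ˢ closure Ω := ⟨⟨ht1, le_refl _⟩, subset_closure hq1⟩
  obtain ⟨⟨s, q⟩, hmem, hmax⟩ := hcomp.exists_isMaxOn ⟨_, hmem1⟩ hcont.continuousOn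
  have hmax' : ∀ s' ∈ Icc t0 t1, ∀ q' ∈ closure Ω,
      Real.exp (-(L * s')) * (a (s', q') ^ 2 + b (s', q') ^ 2) ≤
        Real.exp (-(L * s)) * (a (s, q) ^ 2 + b (s, q) ^ 2) := fun s' hs' q' hq' =>
    hmax (show (s', q') ∈ _ from ⟨hs', hq'⟩)
  have hs : s ∈ Icc t0 t1 := hmem.1
  have hq : q ∈ closure Ω := hmem.2
  have hF : 0 < a (s, q) ^ 2 + b (s, q) ^ 2 := by
    have h1 := hmax' t1 ⟨ht1, le_refl _⟩ q1 (subset_closure hq1)
    have h2 : 0 < Real.exp (-(L * t1)) * (a (t1, q1) ^ 2 + b (t1, q1) ^ 2) := by positivity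
    have h3 := lt_of_lt_of_le h2 h1
    exact pos_of_mul_pos_right h3 (Real.exp_pos _).le
  have hqΩ : q ∈ Ω := by
    by_contra hqn
    have hfr : q ∈ frontier Ω := by
      rw [hΩ.frontier_eq]
      exact ⟨hq, hqn⟩
    have h1 := h.bc s q hfr
    rw [h1.1, h1.2.1] at hF
    norm_num at hF
  have hs0 : t0 < s := by
    rcases eq_or_lt_of_le hs.1 with h1 | h1
    · exfalso
      have h2 := h0 q hqΩ
      rw [h1] at h2
      rw [h2.1, h2.2] at hF
      norm_num at hF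
    · exact h1
  -- time derivative
  have htime : 0 ≤ -L * (a (s, q) ^ 2 + b (s, q) ^ 2)
      + (2 * a (s, q) * dt a (s, q) + 2 * b (s, q) * dt b (s, q)) := by
    have h1 : HasDerivAt (fun r => Real.exp (-(L * r))) (Real.exp (-(L * s)) * (-L)) s := by
      have h2 : HasDerivAt (fun r => -(L * r)) (-L) s := by
        have := ((hasDerivAt_id s).const_mul L).neg
        rw [mul_one] at this
        exact this
      exact h2.exp
    have h2 := h1.mul (((FU_ht da s q).pow 2).add ((FU_ht db s q).pow 2))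
    have h3 := deriv_nonpos_of_left h2.neg hs0 (fun s' hs' => by
      have := hmax' s' ⟨hs'.1, le_trans hs'.2 hs.2⟩ q hq
      simp only [Pi.neg_apply, Pi.mul_apply, Pi.add_apply, Pi.pow_apply]
      linarith)
    simp only [Pi.add_apply, Pi.pow_apply] at h3
    have h4 : 0 ≤ Real.exp (-(L * s)) * (-L * (a (s, q) ^ 2 + b (s, q) ^ 2)
        + (2 * a (s, q) * dt a (s, q) + 2 * b (s, q) * dt b (s, q))) := by
      norm_num at h3
      linarith
    exact nonneg_of_mul_nonneg_right h4 (Real.exp_pos _)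
  -- space
  have hev : ∀ᶠ q' in 𝓝 q, a (s, q') ^ 2 + b (s, q') ^ 2 ≤ a (s, q) ^ 2 + b (s, q) ^ 2 := by
    filter_upwards [hΩ.mem_nhds hqΩ] with q' hq'
    have h1 := hmax' s hs q' (subset_closure hq')
    exact le_of_mul_le_mul_left h1 (Real.exp_pos _)
  obtain ⟨x, y⟩ := q
  have hx := FU_one (f := fun r => a (s, (r, y))) (g := fun r => b (s, (r, y)))
    (f1 := fun r => dx a (s, (r, y))) (g1 := fun r => dx b (s, (r, y))) (x := x)
    (fun r => FU_hx da s r y) (fun r => FU_hx db s r y) (FU_hx dax s x y) (FU_hx dbx s x y)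
    ((Continuous.tendsto (by fun_prop : Continuous fun r : ℝ => (r, y)) x).eventually hev)
  have hy := FU_one (f := fun r => a (s, (x, r))) (g := fun r => b (s, (x, r)))
    (f1 := fun r => dy a (s, (x, r))) (g1 := fun r => dy b (s, (x, r))) (x := y)
    (fun r => FU_hy da s x r) (fun r => FU_hy db s x r) (FU_hy day s x y) (FU_hy dby s x y)
    ((Continuous.tendsto (by fun_prop : Continuous fun r : ℝ => (x, r)) y).eventually hev)
  have ea := h.ea s (x, y) hqΩ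
  have eb := h.eb s (x, y) hqΩ
  obtain ⟨-, -, k1, k2, k3, k4⟩ := hK (s, (x, y))
  obtain ⟨A, hA⟩ : ∃ A : ℝ, A = a (s, (x, y)) := ⟨_, rfl⟩
  obtain ⟨B, hB⟩ : ∃ B : ℝ, B = b (s, (x, y)) := ⟨_, rfl⟩
  rw [← hA, ← hB] at hx hy htime hF ea eb
  obtain ⟨hx1, hx2⟩ := hx
  obtain ⟨hy1, hy2⟩ := hy
  have hda : dt a (s, (x, y)) = ν * (dx (dx a) (s, (x, y)) + dy (dy a) (s, (x, y)))
      - m (s, (x, y)) * dx a (s, (x, y)) - n (s, (x, y)) * dy a (s, (x, y))
      - A * dx m (s, (x, y)) - B * dy m (s, (x, y)) := by linarith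
  have hdb : dt b (s, (x, y)) = ν * (dx (dx b) (s, (x, y)) + dy (dy b) (s, (x, y)))
      - m (s, (x, y)) * dx b (s, (x, y)) - n (s, (x, y)) * dy b (s, (x, y))
      - A * dx n (s, (x, y)) - B * dy n (s, (x, y)) := by linarith
  have hsum : A * dt a (s, (x, y)) + B * dt b (s, (x, y)) =
      ν * ((A * dx (dx a) (s, (x, y)) + B * dx (dx b) (s, (x, y)))
        + (A * dy (dy a) (s, (x, y)) + B * dy (dy b) (s, (x, y))))
      - m (s, (x, y)) * (A * dx a (s, (x, y)) + B * dx b (s, (x, y)))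
      - n (s, (x, y)) * (A * dy a (s, (x, y)) + B * dy b (s, (x, y)))
      - (A ^ 2 * dx m (s, (x, y)) + A * B * dy m (s, (x, y)) + A * B * dx n (s, (x, y))
        + B ^ 2 * dy n (s, (x, y))) := by
    rw [hda, hdb]
    ring
  rw [hx1, hy1] at hsum
  have hν2 : ν * ((A * dx (dx a) (s, (x, y)) + B * dx (dx b) (s, (x, y)))
        + (A * dy (dy a) (s, (x, y)) + B * dy (dy b) (s, (x, y)))) ≤ 0 :=
    mul_nonpos_of_nonneg_of_nonpos hν.le (by linarith)
  have hAB : |A * B| ≤ (A ^ 2 + B ^ 2) / 2 := by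
    rw [abs_le]
    constructor <;> nlinarith [sq_nonneg (A + B), sq_nonneg (A - B)]
  have hq1' : -(A ^ 2 * dx m (s, (x, y))) ≤ K * A ^ 2 := by
    have := (abs_le.1 k1).1
    nlinarith [sq_nonneg A]
  have hq2' : -(B ^ 2 * dy n (s, (x, y))) ≤ K * B ^ 2 := by
    have := (abs_le.1 k4).1
    nlinarith [sq_nonneg B]
  have hq3 : -(A * B * dy m (s, (x, y))) ≤ K * ((A ^ 2 + B ^ 2) / 2) := by
    calc -(A * B * dy m (s, (x, y))) ≤ |A * B * dy m (s, (x, y))| := neg_le_abs _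
      _ = |A * B| * |dy m (s, (x, y))| := abs_mul _ _
      _ ≤ ((A ^ 2 + B ^ 2) / 2) * K := mul_le_mul hAB k2 (abs_nonneg _) (by positivity)
      _ = _ := mul_comm _ _
  have hq4 : -(A * B * dx n (s, (x, y))) ≤ K * ((A ^ 2 + B ^ 2) / 2) := by
    calc -(A * B * dx n (s, (x, y))) ≤ |A * B * dx n (s, (x, y))| := neg_le_abs _
      _ = |A * B| * |dx n (s, (x, y))| := abs_mul _ _
      _ ≤ ((A ^ 2 + B ^ 2) / 2) * K := mul_le_mul hAB k3 (abs_nonneg _) (by positivity)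
      _ = _ := mul_comm _ _
  have hfin : A * dt a (s, (x, y)) + B * dt b (s, (x, y)) ≤ 2 * K * (A ^ 2 + B ^ 2) := by
    rw [hsum]
    nlinarith
  rw [hL] at htime
  nlinarith

end NS
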